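import Pool.Agent.Helper40.PR.Defs3

/-!
# PR-E3: the corner argument for the skew Lie product
-/

namespace Pool.Agent.Helper41.PRAux

open PR ContinuousLinearMap InnerProductSpace Complex

open scoped ComplexConjugate

variable {H : Type*} [NormedAddCommGroup H] [InnerProductSpace ℂ H] [CompleteSpace H]


theorem mul_po (T : H →L[ℂ] H) (x y : H) : T * po x y = po (T x) y := by
  ext z
  simp

theorem po_mul (T : H →L[ℂ] H) (x y : H) : po x y * T = po x (adjoint T y) := by
  ext z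
  simp [adjoint_inner_left]

theorem adjoint_po (x y : H) : adjoint (po x y) = po y x := by
  symm
  rw [eq_adjoint_iff]
  intro z w
  simp [inner_smul_left, inner_smul_right, mul_comm]

theorem sa_adj {T : H →L[ℂ] H} (h : IsSelfAdjoint T) : adjoint T = T := h.adjoint_eq

theorem sa_of {T : H →L[ℂ] H} (h : adjoint T = T) : IsSelfAdjoint T := by
  rw [isSelfAdjoint_iff']
  exact h

theorem real_smul_adj (a : ℝ) (T : H →L[ℂ] H) : adjoint ((a : ℂ) • T) = (a : ℂ) • adjoint T := by
  rw [map_smulₛₗ]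
  simp

/-- a self-adjoint operator which commutes with everything self-adjoint that commutes with the
projection `Q` is a real multiple of `Q` on the range of `Q` -/
theorem on_range {Q S : H →L[ℂ] H} (hQ : IsSelfAdjoint Q) (hQ2 : Q * Q = Q)
    (hS : IsSelfAdjoint S)
    (h : ∀ Z : H →L[ℂ] H, IsSelfAdjoint Z → Commute Z Q → Commute Z S) :
    ∃ a : ℝ, S * Q = (a : ℂ) • Q := by
  by_cases hq : ∃ z, Q z ≠ 0
  · obtain ⟨z, hz⟩ := hq
    have hQQ : ∀ y, Q (Q y) = Q y := fun y => by
      have := congrArg (fun T : H →L[ℂ] H => T y) hQ2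
      simpa using this
    obtain ⟨y0, hn, hQy⟩ : ∃ y0 : H, ‖y0‖ = 1 ∧ Q y0 = y0 := by
      refine ⟨((‖Q z‖⁻¹ : ℝ) : ℂ) • Q z, ?_, ?_⟩
      · rw [norm_smul]
        simp [hz]
      · rw [map_smul, hQQ]
    have hin : inner ℂ y0 y0 = 1 := by
      rw [inner_self_eq_norm_sq_to_K, hn]
      simp
    have hcomm : ∀ w, Q w = w → Commute (po y0 w + po w y0) S := by
      intro w hw
      refine h _ (sa_of ?_) ?_
      · rw [map_add, adjoint_po, adjoint_po, add_comm]
      · change (po y0 w + po w y0) * Q = Q * (po y0 w + po w y0)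
        rw [add_mul, mul_add, po_mul, po_mul, mul_po, mul_po, sa_adj hQ, hw, hQy]
    have hS0 : S y0 = inner ℂ y0 (S y0) • y0 := by
      have h1 : (po y0 y0 + po y0 y0) (S y0) = S ((po y0 y0 + po y0 y0) y0) :=
        congrArg (fun T : H →L[ℂ] H => T y0) (hcomm y0 hQy).eq
      rw [add_apply, add_apply, map_add, po_apply, po_apply, map_smul, hin, one_smul] at h1
      rw [← two_smul ℂ, ← two_smul ℂ (S y0)] at h1
      exact (smul_right_injective H (two_ne_zero' ℂ) h1).symm
    have hre : ((inner ℂ y0 (S y0)).re : ℂ) = inner ℂ y0 (S y0) := by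
      have h2 : conj (inner ℂ y0 (S y0)) = inner ℂ y0 (S y0) := by
        rw [inner_conj_symm]
        conv_lhs => rw [← sa_adj hS]
        rw [adjoint_inner_left]
      exact Complex.conj_eq_iff_re.1 h2
    refine ⟨(inner ℂ y0 (S y0)).re, ?_⟩
    rw [hre]
    ext y
    have h3 : (po y0 (Q y) + po (Q y) y0) (S y0) = S ((po y0 (Q y) + po (Q y) y0) y0) :=
      congrArg (fun T : H →L[ℂ] H => T y0) (hcomm (Q y) (hQQ y)).eq
    rw [add_apply, add_apply, map_add, po_apply, po_apply, po_apply, po_apply, map_smul, map_smul,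
      hin, one_smul] at h3
    rw [hS0, inner_smul_right, inner_smul_right, hin, mul_one] at h3
    change S (Q y) = inner ℂ y0 (S y0) • Q y
    have h4 : inner ℂ (Q y) y0 • inner ℂ y0 (S y0) • y0 =
        (inner ℂ y0 (S y0) * inner ℂ (Q y) y0) • y0 := by
      rw [smul_smul, mul_comm]
    rw [h4] at h3
    exact (add_left_cancel h3).symm
  · push Not at hq
    have : Q = 0 := by ext z; simpa using hq z
    exact ⟨0, by rw [this]; simp⟩

theorem sa_one_sub {Q : H →L[ℂ] H} (hQ : IsSelfAdjoint Q) : IsSelfAdjoint (1 - Q) :=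
  (IsSelfAdjoint.one _).sub hQ

/-- final step of the corner argument -/
theorem corner_final {T1 S' Q : H →L[ℂ] H} {a l : ℝ} (hQ2 : Q * Q = Q)
    (ha : a ≠ 0) (hS' : S' = (a : ℂ) • Q) (hQ0 : Q ≠ 0) (hl : T1 * Q = (l : ℂ) • Q)
    (hF : ∀ S : H →L[ℂ] H, IsSelfAdjoint S → T1 * S = S * adjoint T1 →
      ∃ p : ℝ, S = (p : ℂ) • S') :
    ∃ (a : ℝ) (u : H), a ≠ 0 ∧ ‖u‖ = 1 ∧ S' = (a : ℂ) • po u u := by
  have hQQ : ∀ y, Q (Q y) = Q y := fun y => by
    have := congrArg (fun T : H →L[ℂ] H => T y) hQ2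
    simpa using this
  obtain ⟨z, hz⟩ : ∃ z, Q z ≠ 0 := by
    by_contra hcon
    push Not at hcon
    exact hQ0 (by ext z; simpa using hcon z)
  set u : H := ((‖Q z‖⁻¹ : ℝ) : ℂ) • Q z with hu
  have hn : ‖u‖ = 1 := by
    rw [hu, norm_smul]
    simp [hz]
  have hQu : Q u = u := by
    rw [hu, map_smul, hQQ]
  have hTu : T1 u = (l : ℂ) • u := by
    have := congrArg (fun T : H →L[ℂ] H => T u) hl
    simpa [hQu] using this
  have hin : inner ℂ u u = 1 := by
    rw [inner_self_eq_norm_sq_to_K, hn]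
    simp
  have h1 : T1 * po u u = (l : ℂ) • po u u := by
    rw [mul_po, hTu]
    ext w
    rw [smul_apply, po_apply, po_apply, smul_comm]
  have h2 : po u u * adjoint T1 = (l : ℂ) • po u u := by
    have := congrArg adjoint h1
    rw [real_smul_adj, adjoint_po] at this
    rw [← this, ← star_eq_adjoint, ← star_eq_adjoint, star_mul, star_eq_adjoint (po u u),
      adjoint_po]
  obtain ⟨p, hp⟩ := hF (po u u) (sa_of (adjoint_po u u)) (h1.trans h2.symm)
  have h3 : (1 : ℂ) • u = ((p : ℂ) * a) • u := by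
    have := congrArg (fun T : H →L[ℂ] H => T u) hp
    simp only [po_apply, hin, hS', smul_apply, hQu, smul_smul] at this
    exact this
  have hune : u ≠ 0 := by
    intro h0
    rw [h0, norm_zero] at hn
    exact zero_ne_one hn
  have h4 : (1 : ℂ) = (p : ℂ) * a := smul_left_injective ℂ hune h3
  refine ⟨a, u, ha, hn, ?_⟩
  rw [hp, hS', smul_smul, smul_smul, mul_comm (a : ℂ) (p : ℂ), ← h4, one_mul]

end Pool.Agent.Helper41.PRAux

namespace PR

open ContinuousLinearMap InnerProductSpace Complex Pool.Agent.Helper41.PRAux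

open scoped ComplexConjugate

variable {H : Type*} [NormedAddCommGroup H] [InnerProductSpace ℂ H] [CompleteSpace H]

theorem e_corner {T1 S' Q : H →L[ℂ] H} {α β : ℝ} (hQ : IsSelfAdjoint Q) (hQ2 : Q * Q = Q)
    (hα : α ≠ 0) (hS' : S' = (α : ℂ) • Q + (β : ℂ) • (1 : H →L[ℂ] H)) (hns : ¬ RealScalar S')
    (hmem : T1 * S' = S' * adjoint T1) (hT1 : ¬ RealScalar T1)
    (hF : ∀ S : H →L[ℂ] H, IsSelfAdjoint S → T1 * S = S * adjoint T1 → S ≠ 0 →
      ¬ RealScalar S ∧ ∀ Z : H →L[ℂ] H, IsSelfAdjoint Z → Commute Z S' → Commute Z S) :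
    ∃ (a : ℝ) (u : H), a ≠ 0 ∧ ‖u‖ = 1 ∧ S' = (a : ℂ) • po u u ∧
      ∀ S : H →L[ℂ] H, IsSelfAdjoint S → T1 * S = S * adjoint T1 → ∃ p : ℝ, S = (p : ℂ) • S' := by
  have hαC : (α : ℂ) ≠ 0 := by exact_mod_cast hα
  have hS'sa : IsSelfAdjoint S' := by
    apply sa_of
    rw [hS', map_add, real_smul_adj, real_smul_adj, sa_adj hQ, sa_adj (IsSelfAdjoint.one _)]
  have hcomm' : ∀ Z : H →L[ℂ] H, Commute Z Q → Commute Z S' := by
    intro Z hZ
    rw [hS']
    exact (hZ.smul_right _).add_right ((Commute.one_right Z).smul_right _)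
  -- the structure of the elements of `F`
  have hstr : ∀ S : H →L[ℂ] H, IsSelfAdjoint S → T1 * S = S * adjoint T1 →
      ∃ a b : ℝ, S = (a : ℂ) • Q + (b : ℂ) • (1 : H →L[ℂ] H) := by
    intro S hS hTS
    by_cases h0 : S = 0
    · exact ⟨0, 0, by simp [h0]⟩
    have hc := (hF S hS hTS h0).2
    obtain ⟨a, ha⟩ := on_range hQ hQ2 hS (fun Z hZ hZQ => hc Z hZ (hcomm' Z hZQ))
    obtain ⟨b, hb⟩ := on_range (sa_one_sub hQ) (by
        rw [mul_sub, sub_mul, sub_mul, hQ2]; simp) hS (fun Z hZ hZQ => by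
      refine hc Z hZ (hcomm' Z ?_)
      have h1 := (Commute.one_right Z).sub_right hZQ
      simpa using h1)
    refine ⟨a - b, b, ?_⟩
    have h2 : S = S * Q + S * (1 - Q) := by rw [mul_sub, mul_one]; abel
    rw [h2, ha, hb]
    push_cast
    rw [smul_sub, sub_smul]
    abel
  have hscal : ∀ S : H →L[ℂ] H, IsSelfAdjoint S → T1 * S = S * adjoint T1 →
      ∃ p : ℝ, S = (p : ℂ) • S' := by
    intro S hS hTS
    obtain ⟨a, b, hab⟩ := hstr S hS hTS
    refine ⟨a / α, ?_⟩
    have h1 : S - ((a / α : ℝ) : ℂ) • S' = ((b - a / α * β : ℝ) : ℂ) • (1 : H →L[ℂ] H) := by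
      rw [hab, hS']
      push_cast
      rw [smul_add, smul_smul, smul_smul, div_mul_cancel₀ _ hαC, sub_smul]
      abel
    have h2 : IsSelfAdjoint (S - ((a / α : ℝ) : ℂ) • S') := by
      apply sa_of
      rw [map_sub, real_smul_adj, sa_adj hS, sa_adj hS'sa]
    have h3 : T1 * (S - ((a / α : ℝ) : ℂ) • S') = (S - ((a / α : ℝ) : ℂ) • S') * adjoint T1 := by
      rw [mul_sub, sub_mul, hTS, mul_smul_comm, hmem, smul_mul_assoc]
    by_contra hne
    have h4 : S - ((a / α : ℝ) : ℂ) • S' ≠ 0 := fun h0 => hne (sub_eq_zero.1 h0)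
    exact (hF _ h2 h3 h4).1 ⟨_, h1⟩
  -- `T1 S'` belongs to `F`
  obtain ⟨l, hl⟩ := hscal (T1 * S') (by
    apply sa_of
    rw [← star_eq_adjoint, star_mul, star_eq_adjoint, star_eq_adjoint, sa_adj hS'sa, hmem]) (by
    rw [hmem, ← mul_assoc, hmem])
  have hQ0 : Q ≠ 0 := by
    rintro rfl
    exact hns ⟨β, by rw [hS']; simp⟩
  have hQ1 : (1 - Q) ≠ 0 := by
    intro h0
    have h1 : Q = 1 := (sub_eq_zero.1 h0).symm
    exact hns ⟨α + β, by rw [hS', h1]; push_cast; rw [add_smul]⟩
  suffices h : ∃ (a : ℝ) (u : H), a ≠ 0 ∧ ‖u‖ = 1 ∧ S' = (a : ℂ) • po u u by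
    obtain ⟨a, u, h1, h2, h3⟩ := h
    exact ⟨a, u, h1, h2, h3, hscal⟩
  have hTQ : (α : ℂ) • (T1 * Q) + (β : ℂ) • T1 = ((l : ℂ) * α) • Q + ((l : ℂ) * β) • (1 : H →L[ℂ] H) := by
    have h1 := hl
    rw [hS', mul_add, mul_smul_comm, mul_smul_comm, mul_one, smul_add, smul_smul, smul_smul] at h1
    exact h1
  by_cases hβ : β = 0
  · refine corner_final (l := l) hQ2 hα (by rw [hS', hβ]; simp) hQ0 ?_ hscal
    have h2 : (α : ℂ) • (T1 * Q) = (α : ℂ) • ((l : ℂ) • Q) := by
      have h3 := hTQ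
      rw [hβ] at h3
      simp only [ofReal_zero, zero_smul, mul_zero, add_zero] at h3
      rw [h3, smul_smul, mul_comm]
    exact smul_right_injective _ hαC h2
  by_cases hαβ : α + β = 0
  · have hβ' : (β : ℂ) = -(α : ℂ) := by
      have : β = -α := by linarith
      rw [this]; push_cast; ring
    have hβC : (β : ℂ) ≠ 0 := by exact_mod_cast hβ
    refine corner_final (l := l) (a := β) (by
        rw [mul_sub, sub_mul, sub_mul, hQ2]; simp) hβ ?_ hQ1 ?_ hscal
    · rw [hS', smul_sub, hβ', neg_smul, neg_smul]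
      abel
    · have h2 : (β : ℂ) • (T1 * (1 - Q)) = (β : ℂ) • ((l : ℂ) • (1 - Q)) := by
        rw [mul_sub, mul_one, smul_sub, smul_sub, smul_sub, smul_smul, smul_smul]
        have h3 := hTQ
        have h4 : (α : ℂ) = -(β : ℂ) := by rw [hβ']; ring
        rw [h4] at h3
        rw [neg_smul, mul_neg, neg_smul] at h3
        rw [mul_comm (β : ℂ)]
        rw [sub_eq_add_neg, add_comm, h3]
        abel
      exact smul_right_injective _ hβC h2
  · exfalso
    -- `S'` is invertible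
    have hαβC : (α : ℂ) + β ≠ 0 := by exact_mod_cast hαβ
    have hβC : (β : ℂ) ≠ 0 := by exact_mod_cast hβ
    apply hT1
    refine ⟨l, ?_⟩
    -- multiply by `Q` on the right
    have h5 : T1 * Q = (l : ℂ) • Q := by
      have h6 := congrArg (fun T : H →L[ℂ] H => T * Q) hTQ
      simp only [add_mul, smul_mul_assoc, mul_assoc, hQ2, one_mul] at h6
      rw [← add_smul, ← add_smul, ← mul_add, mul_comm (l : ℂ), ← smul_smul] at h6
      exact smul_right_injective _ hαβC h6
    rw [h5, smul_smul, mul_comm (α : ℂ)] at hTQ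
    have h7 := add_left_cancel hTQ
    rw [mul_comm, ← smul_smul] at h7
    exact smul_right_injective _ hβC h7

theorem e_corner_model {x : H} (hx : ‖x‖ = 1) {S : H →L[ℂ] H} (hS : IsSelfAdjoint S) :
    (I • ((1 : H →L[ℂ] H) - po x x)) * S = S * adjoint (I • ((1 : H →L[ℂ] H) - po x x)) ↔
      ∃ p : ℝ, S = (p : ℂ) • po x x := by
  have hin : inner ℂ x x = 1 := by
    rw [inner_self_eq_norm_sq_to_K, hx]
    simp
  have hadj : adjoint (I • ((1 : H →L[ℂ] H) - po x x)) = -(I • ((1 : H →L[ℂ] H) - po x x)) := by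
    rw [map_smulₛₗ, map_sub, adjoint_po, sa_adj (IsSelfAdjoint.one _)]
    simp
  have hSin : ∀ z w : H, inner ℂ z (S w) = inner ℂ (S z) w := by
    intro z w
    conv_rhs => rw [← sa_adj hS]
    rw [adjoint_inner_left]
  rw [hadj]
  constructor
  · intro h
    have h1 : ∀ z, (2 : ℂ) • S z = inner ℂ x (S z) • x + inner ℂ x z • S x := by
      intro z
      have h2 : I • (S z - inner ℂ x (S z) • x) = S (-(I • (z - inner ℂ x z • x))) :=
        congrArg (fun T : H →L[ℂ] H => T z) h
      rw [map_neg, map_smul, map_sub, map_smul] at h2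
      have h3 : I • (S z - inner ℂ x (S z) • x) = I • (-(S z - inner ℂ x z • S x)) := by
        rw [h2, smul_neg]
      have h4 := smul_right_injective H I_ne_zero h3
      rw [two_smul]
      have h5 : S z + S z = (S z - inner ℂ x (S z) • x) + inner ℂ x (S z) • x + S z := by abel
      rw [h5]
      change S z - inner ℂ x (S z) • x = -(S z - inner ℂ x z • S x) at h4
      rw [h4]
      abel
    have hSx : S x = inner ℂ x (S x) • x := by
      have h2 := h1 x
      rw [hin, one_smul, two_smul] at h2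
      exact add_right_cancel h2
    have hre : ((inner ℂ x (S x)).re : ℂ) = inner ℂ x (S x) := by
      have h2 : conj (inner ℂ x (S x)) = inner ℂ x (S x) := by
        rw [inner_conj_symm, hSin]
      exact Complex.conj_eq_iff_re.1 h2
    refine ⟨(inner ℂ x (S x)).re, ?_⟩
    rw [hre]
    ext z
    have h2 := h1 z
    have h3 : inner ℂ x (S z) = inner ℂ x (S x) * inner ℂ x z := by
      rw [hSin, hSx, inner_smul_left, inner_smul_right, hin, mul_one]
      rw [← hre, Complex.conj_ofReal]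
    rw [h3] at h2
    have h4 : inner ℂ x z • S x = (inner ℂ x (S x) * inner ℂ x z) • x := by
      conv_lhs => rw [hSx]
      rw [smul_smul, mul_comm]
    rw [h4, ← two_smul ℂ] at h2
    have h5 := smul_right_injective H (two_ne_zero' ℂ) h2
    change S z = (inner ℂ x (S x) * inner ℂ x z) • x at h5
    rw [h5, smul_apply, po_apply, smul_smul]
  · rintro ⟨p, rfl⟩
    have h1 : po x x * po x x = po x x := by
      rw [mul_po, po_apply, hin, one_smul]
    have h2 : (1 - po x x) * po x x = 0 := by rw [sub_mul, one_mul, h1, sub_self]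
    have h3 : po x x * (1 - po x x) = 0 := by rw [mul_sub, mul_one, h1, sub_self]
    rw [smul_mul_smul_comm, h2, smul_zero, mul_neg, smul_mul_smul_comm, h3, smul_zero, neg_zero]

end PR
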