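import Pool.Agent.Helper40.PR.Defs2
import Pool.Agent.Helper54.PR.TK5
import Pool.Agent.Helper26.PR.TK6

/-!
# PR-RKL: the second order identities force rank one
-/

namespace Pool.Agent.Helper41.PRAux

open PR ContinuousLinearMap

variable {X : Type*} [NormedAddCommGroup X] [NormedSpace ℂ X]

theorem id2_symm {A B : X →L[ℂ] X} (h : Id2 A B) : Id2 B A := by
  intro y1 y2 g1 g2 hy
  obtain ⟨h1, h2⟩ := h y1 y2 g1 g2 hy
  constructor
  · linear_combination h2
  · linear_combination h1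

/-- coefficient comparison of the second identity -/
theorem id2_coef {A B : X →L[ℂ] X} (h : Id2 A B) {y1 y2 : X} (g1 g2 : X →L[ℂ] ℂ)
    (hy : LinearIndependent ℂ ![y1, y2]) :
    g1 (A y1) *
      (g1 (A y1) * g2 (B y2) + g1 (B y1) * g2 (A y2) - g1 (A y2) * g2 (B y1) - g1 (B y2) * g2 (A y1)) =
      2 * g1 (B y1) * (g1 (A y1) * g2 (A y2) - g1 (A y2) * g2 (A y1)) := by
  have h1 := (h y1 y2 g1 g2 hy).2
  have h2 := (h y1 y2 (-g1) g2 hy).2
  simp only [neg_apply] at h2
  linear_combination (1 / 2 : ℂ) * h1 + (1 / 2 : ℂ) * h2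

theorem not_dep_of {x y : X} (h : LinearIndependent ℂ ![x, y]) :
    y ∉ Submodule.span ℂ (Set.range ![x]) := by
  intro h1
  have h2 : y ∈ Submodule.span ℂ ({x} : Set X) := by simpa using h1
  rw [Submodule.mem_span_singleton] at h2
  obtain ⟨c, hc⟩ := h2
  have := (LinearIndependent.pair_iff.1 h c (-1) (by rw [hc]; simp)).2
  exact one_ne_zero (neg_eq_zero.1 this)

/-- a functional which kills `x` and is nonzero at `y` and `z` -/
theorem exists_two {x y z : X} (h : LinearIndependent ℂ ![x, y]) (h' : LinearIndependent ℂ ![x, z]) :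
    ∃ f : X →L[ℂ] ℂ, f x = 0 ∧ f y ≠ 0 ∧ f z ≠ 0 := by
  obtain ⟨f1, hf1, hf1'⟩ := exists_dual_sep (not_dep_of h)
  obtain ⟨f2, hf2, hf2'⟩ := exists_dual_sep (not_dep_of h')
  have e1 : f1 x = 0 := by simpa using hf1 0
  have e2 : f2 x = 0 := by simpa using hf2 0
  by_cases h1 : f1 z = 0
  · by_cases h2 : f2 y = 0
    · refine ⟨f1 + f2, by simp [e1, e2], by simp [hf1', h2], by simp [h1, hf2']⟩
    · exact ⟨f2, e2, h2, by rw [hf2']; exact one_ne_zero⟩
  · exact ⟨f1, e1, by rw [hf1']; exact one_ne_zero, h1⟩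

theorem indep_of_map {A : X →L[ℂ] X} {y1 y2 : X} (h : LinearIndependent ℂ ![A y1, A y2]) :
    LinearIndependent ℂ ![y1, y2] := by
  rw [LinearIndependent.pair_iff] at h ⊢
  intro s t hst
  refine h s t ?_
  rw [← map_smul, ← map_smul, ← map_add, hst, map_zero]

theorem indep_swap {x y : X} (h : LinearIndependent ℂ ![x, y]) : LinearIndependent ℂ ![y, x] := by
  rw [LinearIndependent.pair_iff] at h ⊢
  intro s t hst
  have := h t s (by rw [add_comm]; exact hst)
  exact ⟨this.2, this.1⟩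

theorem dep_of_rank {A B : X →L[ℂ] X} (h : Id2 A B) {y1 y2 : X}
    (hi : LinearIndependent ℂ ![A y1, A y2]) : ¬ LinearIndependent ℂ ![A y1, B y1] := by
  intro hB
  obtain ⟨g1, e1, e2, e3⟩ := exists_two hB hi
  have hne : A y1 ≠ 0 := by
    intro h0
    exact one_ne_zero (LinearIndependent.pair_iff.1 hi 1 0 (by simp [h0])).1
  obtain ⟨g2, hg2⟩ := SeparatingDual.exists_eq_one (R := ℂ) hne
  have := id2_coef h g1 g2 (indep_of_map hi)
  rw [e1, hg2] at this
  have h2 : 2 * g1 (B y1) * g1 (A y2) = 0 := by linear_combination this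
  simp [e2, e3] at h2

theorem indep_with {a b y : X} (hi : LinearIndependent ℂ ![a, b]) (hy : y ≠ 0) :
    LinearIndependent ℂ ![y, a] ∨ LinearIndependent ℂ ![y, b] := by
  by_contra hcon
  push Not at hcon
  obtain ⟨c, hc⟩ := dep_pair hcon.1 hy
  obtain ⟨d, hd⟩ := dep_pair hcon.2 hy
  have h0 := LinearIndependent.pair_iff.1 hi d (-c) (by
    rw [hc, hd, smul_smul, smul_smul, ← add_smul]
    have : d * c + -c * d = 0 := by ring
    rw [this, zero_smul])
  have h1 := LinearIndependent.pair_iff.1 hi 1 0 (by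
    rw [hc, neg_eq_zero.1 h0.2]
    simp)
  exact one_ne_zero h1.1

/-- the operator `A` has rank one -/
theorem rank_one_aux {A B : X →L[ℂ] X} (h : Id2 A B) (hA : ¬ ∃ c : ℂ, A = c • B)
    (hB : ¬ ∃ c : ℂ, B = c • A) : ∃ (x : X) (f : X →L[ℂ] ℂ), x ≠ 0 ∧ A = rk x f := by
  have hA0 : A ≠ 0 := fun h0 => hA ⟨0, by rw [h0, zero_smul]⟩
  refine rank_one_of_dep A ?_ hA0
  intro y1 y2 hi
  refine hB (prop_of_indep A B ?_ hi)
  intro y hy
  have hne : A y ≠ 0 := by
    intro h0
    exact one_ne_zero (LinearIndependent.pair_iff.1 hy 1 0 (by simp [h0])).1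
  rcases indep_with hi hne with h1 | h1
  · exact dep_of_rank h h1 hy
  · exact dep_of_rank h h1 hy

end Pool.Agent.Helper41.PRAux

namespace PR

open ContinuousLinearMap Pool.Agent.Helper41.PRAux

variable {X : Type*} [NormedAddCommGroup X] [NormedSpace ℂ X]

/-- RKL. The second order identities force rank one. -/
theorem rank_one_of_id2 [CompleteSpace X] {A B : X →L[ℂ] X} (h : Id2 A B) (hA : ¬ ∃ c : ℂ, A = c • B)
    (hB : ¬ ∃ c : ℂ, B = c • A) :
    ∃ (x y : X) (f g : X →L[ℂ] ℂ), A = rk x f ∧ B = rk y g ∧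
      (((∃ c : ℂ, y = c • x) ∧ LinearIndependent ℂ ![f, g]) ∨
        (LinearIndependent ℂ ![x, y] ∧ (∃ c : ℂ, g = c • f))) := by
  obtain ⟨x, f, hx, hAx⟩ := rank_one_aux h hA hB
  obtain ⟨y, g, hy, hBy⟩ := rank_one_aux (id2_symm h) hB hA
  have hf : f ≠ 0 := by
    intro h0
    refine hA ⟨0, ?_⟩
    rw [hAx, h0]
    ext z
    simp
  refine ⟨x, y, f, g, hAx, hBy, ?_⟩
  by_cases hxy : LinearIndependent ℂ ![x, y]
  · refine Or.inr ⟨hxy, ?_⟩
    by_cases hfg : LinearIndependent ℂ ![f, g]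
    · exfalso
      obtain ⟨g1, hg1⟩ := exists_dual_fin hxy ![1, 0]
      obtain ⟨g2, hg2⟩ := exists_dual_fin hxy ![0, 1]
      obtain ⟨y1, hy1⟩ := exists_vec_fin hfg ![1, 0]
      obtain ⟨y2, hy2⟩ := exists_vec_fin hfg ![0, 1]
      have a1 : g1 x = 1 := by simpa using hg1 0
      have a2 : g1 y = 0 := by simpa using hg1 1
      have a3 : g2 x = 0 := by simpa using hg2 0
      have a4 : g2 y = 1 := by simpa using hg2 1
      have b1 : f y1 = 1 := by simpa using hy1 0
      have b2 : g y1 = 0 := by simpa using hy1 1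
      have b3 : f y2 = 0 := by simpa using hy2 0
      have b4 : g y2 = 1 := by simpa using hy2 1
      have hi : LinearIndependent ℂ ![y1, y2] := by
        rw [LinearIndependent.pair_iff]
        intro s t hst
        have c1 := congrArg f hst
        have c2 := congrArg g hst
        simp [b1, b2, b3, b4] at c1 c2
        exact ⟨c1, c2⟩
      have := (h y1 y2 g1 g2 hi).2
      simp [hAx, hBy, a1, a2, a3, a4, b1, b2, b3, b4] at this
    · exact dep_pair hfg hf
  · obtain ⟨c, hc⟩ := dep_pair hxy hx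
    refine Or.inl ⟨⟨c, hc⟩, ?_⟩
    by_contra hfg
    obtain ⟨d, hd⟩ := dep_pair hfg hf
    refine hB ⟨d * c, ?_⟩
    rw [hAx, hBy, hc, hd]
    ext z
    simp [smul_smul]
    ring_nf

end PR
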